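import Pool.Agent.V11281.Snf.Count

/-!
# `csf`-countability of the levels of free abelian topological groups over Lašnev spaces
-/

set_option autoImplicit false

open Set Topology Filter
open Pool.Agent.V11281.Snf

namespace Pool.Agent.Results.MP_1e4d5b_gt.CsfLevels

universe u v

/-- `X` is a Hausdorff space which is the image of a metrizable space under a closed continuous
surjection. -/
def IsLasnev (X : Type u) [TopologicalSpace X] : Prop :=
  T2Space X ∧ ∃ (Z : Type u) (_ : TopologicalSpace Z) (f : Z → X),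
    TopologicalSpace.MetrizableSpace Z ∧ Continuous f ∧ IsClosedMap f ∧ Function.Surjective f

/-- closed continuous images of normal spaces are normal -/
lemma normal_of_closed {X : Type u} [TopologicalSpace X] {Z : Type v} [TopologicalSpace Z]
    [NormalSpace Z] {f : Z → X} (hf : Continuous f) (hc : IsClosedMap f)
    (hs : Function.Surjective f) : NormalSpace X := by
  refine ⟨fun A B hA hB hAB => ?_⟩
  obtain ⟨U, V, hU, hV, hAU, hBV, hUV⟩ := normal_separation (hA.preimage hf) (hB.preimage hf)
    (hAB.preimage f)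
  refine ⟨(f '' Uᶜ)ᶜ, (f '' Vᶜ)ᶜ, (hc _ hU.isClosed_compl).isOpen_compl,
    (hc _ hV.isClosed_compl).isOpen_compl, ?_, ?_, ?_⟩
  · rintro a ha ⟨z, hz, rfl⟩
    exact hz (hAU ha)
  · rintro b hb ⟨z, hz, rfl⟩
    exact hz (hBV hb)
  · rw [Set.disjoint_left]
    intro x hx1 hx2
    obtain ⟨z, rfl⟩ := hs x
    have h1 : z ∈ U := by
      by_contra h
      exact hx1 ⟨z, h, rfl⟩
    have h2 : z ∈ V := by
      by_contra h
      exact hx2 ⟨z, h, rfl⟩
    exact (Set.disjoint_left.1 hUV) h1 h2

/-- Let `X` be a Lašnev space.  If `A_M(X)` is `csf`-countable for `M = 4`, or just for `M = 2`,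
then every `A_n(X)` is `csf`-countable. -/
theorem result (X : Type u) [TopologicalSpace X] (hX : IsLasnev X) :
    (CsfCountable (An X 4) → ∀ n : ℕ, CsfCountable (An X n)) ∧
      (CsfCountable (An X 2) → ∀ n : ℕ, CsfCountable (An X n)) := by
  obtain ⟨hT, Z, τ, f, hZ, hf, hc, hs⟩ := hX
  haveI := hT
  haveI := normal_of_closed hf hc hs
  haveI : SequentialSpace X := (hc.isQuotientMap hf hs).sequentialSpace
  haveI : T35Space X := inferInstance
  exact ⟨fun h n => csf_An (seqB_of_normal X) (by norm_num) h n,
    fun h n => csf_An (seqB_of_normal X) le_rfl h n⟩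

end Pool.Agent.Results.MP_1e4d5b_gt.CsfLevels
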